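import Pool.Agent.Helper33.Henon.Supp

/-!
# MP_2777d9_an: the answer to Q1 is negative

There are `k ≥ 3`, `1 ≤ p ≤ k - 2` (in fact `k = 4`, `p = 2`), a Henon-type automorphism `f` of
`ℂᵏ` with integer `p` and a non-degenerate holomorphic map `τ : ℂ^{k-p} → ℂᵏ` with values in
`K(f)` such that the closure of `τ(ℂ^{k-p})` in `ℙᵏ` does not contain the support of the dynamical
Green current `T(f)`.

All definitions (projective space with its topology, smooth forms on `ℙᵏ`, positive closed
currents, mass, support, Henon-type automorphisms, `K(f)`, Green current) are in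
`Pool/Agent/Helper33/Henon/Defs.lean`.
-/

set_option autoImplicit false

open Pool.Agent.Helper33.Henon

namespace Pool.Agent.Results.MP_2777d9_an.Disproof

/-- **Negative answer to Q1.** For some `k`, `p` with `k ≥ 3`, `1 ≤ p ≤ k - 2` there are a
Henon-type automorphism `f` of `ℂᵏ` with integer `p` and a holomorphic map
`τ : ℂ^{k-p} → ℂᵏ` whose differential has rank `k - p` at some point, with `τ(ℂ^{k-p}) ⊆ K(f)`,
such that the dynamical Green current `T` of `f` (it exists) has a point in its support which is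
not in the closure of `τ(ℂ^{k-p})` in `ℙᵏ`. -/
theorem result : ∃ k p : ℕ, 3 ≤ k ∧ 1 ≤ p ∧ p + 2 ≤ k ∧
    ∃ f : PolyAut k, f.IsHenonType p ∧
    ∃ τ : (Fin (k - p) → ℂ) → (Fin k → ℂ), Differentiable ℂ τ ∧
      (∃ w, Function.Injective (fderiv ℂ τ w)) ∧ (∀ w, τ w ∈ f.K) ∧
      (∃ T : Cur k (2 * (k - p)), IsGreenCurrent f p T) ∧
      ∀ T : Cur k (2 * (k - p)), IsGreenCurrent f p T →
        ∃ q ∈ curSupport T, q ∉ closure (Set.range fun w => emb (τ w)) := by
  refine ⟨4, 2, by norm_num, by norm_num, by norm_num, fA, fA_henon, tau, tau_differentiable,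
    ⟨0, tau_nondeg⟩, tau_mem_K, ⟨TG, exists_green⟩, fun T hT => ?_⟩
  by_contra hcon
  push Not at hcon
  obtain ⟨α, hα, hα1⟩ := hT.mass
  have h0 : T.ev α = 0 := by
    refine mass_zero T hT.posClosed (δ := 1 / 514) (by norm_num) (fun q hq => ?_) α hα
    have h1 := closure_tau q (hcon q hq)
    linarith
  rw [h0] at hα1
  norm_num at hα1

end Pool.Agent.Results.MP_2777d9_an.Disproof
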